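import Pool.Agent.LibCW70.Main3

set_option autoImplicit false

/-!
# MP_6fa1a0_gt, Q1 (cell-like equivalence of boundaries of CAT(0) groups):
# Coxeter groups and graph products

The answer is yes for every finitely generated Coxeter group, for every graph product of finite
groups and Coxeter groups over a finite graph, for arbitrary geometric actions on CAT(0) spaces,
and for every group which contains such a group as a subgroup of finite index.  Also infinite
cyclic vertex groups are allowed, at vertices `v` covered by another vertex `u` (different from
`v`, not adjacent to `v`, and adjacent to all neighbours of `v`).

The frontiers of the half spaces of these groups are at finite distance from centralizers of finite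
sets, and these are at finite distance from convex sets in any CAT(0) space with a geometric
action.  So the half spaces can be realised by closed convex sets in both spaces, and
`Z = {(ξ, η) : ξ and η are limits of the same half spaces}` is a resolution of both boundaries,
the fibres being nested intersections of closures of convex sets without common point.
-/

/-- **Bestvina's cell-like equivalence question for Coxeter groups and graph products.**  The
group `G` has a subgroup `H` of finite index which is the graph product, over a finite graph `Γ`,
of groups `P v`, each of which is finite, or a Coxeter group with finitely many generators, or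
infinite cyclic at a vertex `v` covered by a vertex `u` with `P u ≠ 1`.  Then any two CAT(0)
boundaries of `G` are cell-like equivalent.  (One vertex: Coxeter groups.) -/
theorem Pool.Agent.Results.MP_6fa1a0_gt.CoxeterGraphProducts.result :
    ∀ (G : Type) [Group G] (H : Subgroup G) [H.FiniteIndex]
      (V : Type) [Finite V] (Γ : SimpleGraph V) (P : V → Type) [∀ v, Group (P v)],
      (∀ v, Finite (P v) ∨
        (∃ (B : Type) (_ : Finite B) (M : CoxeterMatrix B), Nonempty (CoxeterSystem M (P v))) ∨
        (Nonempty (P v ≃* Multiplicative ℤ) ∧
          ∃ u, u ≠ v ∧ ¬ Γ.Adj v u ∧ (∀ w, Γ.Adj v w → Γ.Adj u w) ∧ Nontrivial (P u))) →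
      Nonempty (↥H ≃* (Monoid.CoprodI P ⧸ Subgroup.normalClosure (LibCW70.gpRel Γ P))) →
      LibCE75.CEUnique G := by
  intro G _ H _ V _ Γ P _ hP hH
  exact LibCW70.main_graphProducts G H V Γ P hP hH
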