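import Pool.Agent.LibCE75.Main

set_option autoImplicit false

/-!
# MP_6fa1a0_gt, Q1 (cell-like equivalence of boundaries of CAT(0) groups)

Reduction of the question along splittings over finite groups: if any two CAT(0) boundaries of
each infinite vertex stabiliser of an action of `G` on a tree with finite edge stabilisers and
finitely many orbits of edges are cell-like equivalent, then so are any two CAT(0) boundaries of
`G`.
-/

/-- **Cell-like equivalence and splittings over finite groups.**  `G` acts on the tree `T` by
automorphisms, with finite stabilisers of edges and finitely many orbits of edges.  If any two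
CAT(0) boundaries of each infinite vertex stabiliser are cell-like equivalent, then any two CAT(0)
boundaries of `G` are cell-like equivalent. -/
theorem Pool.Agent.Results.MP_6fa1a0_gt.FiniteEdgeGroups.result :
    ∀ (G V : Type) [Group G] [MulAction G V] (T : SimpleGraph V), T.IsTree →
      (∀ (g : G) (v w : V), T.Adj v w → T.Adj (g • v) (g • w)) →
      (∀ v w : V, T.Adj v w → {g : G | g • v = v ∧ g • w = w}.Finite) →
      (∃ S : Set (V × V), S.Finite ∧ ∀ v w : V, T.Adj v w → ∃ g : G, (g • v, g • w) ∈ S) →
      (∀ v : V, Infinite (MulAction.stabilizer G v) →
        LibCE75.CEUnique (MulAction.stabilizer G v)) →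
      LibCE75.CEUnique G :=
  fun G V _ _ T hT hadj hfin hcof hQ => LibCE75.main G V T hT hadj hfin hcof hQ
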