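import Pool.Agent.LibCW70.Main3

set_option autoImplicit false

/-!
# MP_6fa1a0_gt, Q1 (cell-like equivalence of boundaries of CAT(0) groups): criterion by walls

A group with half spaces the frontiers of which are coarsely convex in both CAT(0) spaces; this is
automatic if the frontiers are near to centralizers of finite sets.
-/

/-- **Cell-like equivalence and walls.**  `G` acts geometrically on the CAT(0) spaces `X₁`, `X₂`,
the subgroup `H` of finite index has a family `𝓗` of half spaces as in `WallG`, and each frontier is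
at finite distance from the centralizer in `H` of a finite set, or at finite Hausdorff distance from
a closed convex set in `X₁` and from a closed convex set in `X₂`.  Then the boundaries of `X₁` and
`X₂` are cell-like equivalent. -/
theorem Pool.Agent.Results.MP_6fa1a0_gt.WallCriterion.result :
    ∀ (G : Type) [Group G] (H : Subgroup G) [H.FiniteIndex] (S : Set ↥H) (𝓗 : Set (Set ↥H)),
      LibCW70.WallG S 𝓗 →
      ∀ (X₁ X₂ : Type) [MetricSpace X₁] [MetricSpace X₂] [MulAction G X₁] [MulAction G X₂],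
        LibCE75.IsCAT0 X₁ → LibCE75.IsCAT0 X₂ → LibCE75.Geometric G X₁ →
        LibCE75.Geometric G X₂ → ∀ (x₁ : X₁) (x₂ : X₂),
        (∀ A ∈ 𝓗, (∃ F : Set ↥H, LibCW70.NearCent F (LibCW70.Fr S A)) ∨
          (LibCW70.CoarseCvx x₁ (LibCW70.Fr S A) ∧ LibCW70.CoarseCvx x₂ (LibCW70.Fr S A))) →
        LibCE75.CellLikeEquivalent (LibCE75.Ray X₁ x₁) (LibCE75.Ray X₂ x₂) := by
  intro G _ H _ S 𝓗 hw X₁ X₂ _ _ _ _ hX₁ hX₂ hG₁ hG₂ x₁ x₂ hF
  exact LibCW70.main_criterion G H S 𝓗 hw X₁ X₂ hX₁ hX₂ hG₁ hG₂ x₁ x₂ hF
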